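import Mathlib
import Pool.Agent.Helper73.SM.AsmU
import Pool.Agent.Helper57.SM.UCZ
import Pool.Agent.Helper57.SM.UC3
import Pool.Agent.Helper57.SM.UPD
import Pool.Agent.Helper57.SM.USM
import Pool.Agent.Helper57.SM.BIN
import Pool.Agent.Helper80.SM.UCR
import Pool.Agent.Helper80.SM.UDT
import Pool.Agent.Helper80.SM.USZ
import Pool.Agent.Helper80.SM.UVL
import Pool.Agent.Helper95.SM.UPR
import Pool.Agent.Helper32.SM.URT
import Pool.Agent.Helper40.SM.ULD
import Pool.Agent.Helper40.SM.UAS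
import Pool.Agent.Helper84.SM.UKY
import Pool.Agent.Helper27.SM.UCP
import Pool.Agent.Helper28.SM.INT
import Pool.Agent.Helper45.SM.REM
import Pool.Agent.Helper6.SM.SAA

/-!
# Badly approximable behaviour of the cubic numbers `(1 + 1/N)^(1/3)` in a long range

For every `δ > 0` there is `c > 0` such that in every interval `(X, 2X]`, `X` large, all but `δ X` of
the integers `N` are such that the cubic number `ξ = (1 + 1/N)^(1/3)` satisfies
`|ξ - p/q| ≥ c / (N q²)` for all integers `p` and all `1 ≤ q ≤ exp ((log N)² / 10)`.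
-/

set_option autoImplicit false

namespace Pool.Agent.Helper73.Superseded.CubeRoots

open Pool.Agent

/-- For every `δ > 0` there are `c > 0` and `X₀` such that for all `X ≥ X₀`, at most `δ X` of the
integers `X < N ≤ 2X` are such that `|(1 + 1/N)^(1/3) - p/q| < c / (N q²)` for some integers `p` and
`1 ≤ q ≤ exp ((log N)² / 10)`. -/
theorem result (δ : ℝ) (hδ : 0 < δ) :
    ∃ (c : ℝ) (X₀ : ℕ), 0 < c ∧ ∀ X : ℕ, X₀ ≤ X →
      (({N : ℕ | X < N ∧ N ≤ 2 * X ∧ ∃ (p : ℤ) (q : ℕ), 1 ≤ q ∧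
        (q : ℝ) ≤ Real.exp (Real.log N ^ 2 / 10) ∧
        |(1 + 1 / (N : ℝ)) ^ (1 / (3 : ℝ)) - (p : ℝ) / (q : ℝ)| < c / (N * (q : ℝ) ^ 2)}).ncard : ℝ)
        ≤ δ * X := by
  have hINT := Helper28.SM.goalINT
  have hBIN := Helper57.SM.goalBIN
  have hSAA := Helper6.SM.goalSAA
  have hREM := Helper45.SM.goalREM hSAA hBIN
  have hUCZ := Helper57.SM.goalUCZ hINT
  have hUDT := Helper80.SM.goalUDT hSAA hBIN hUCZ
  have hUSZ := Helper80.SM.goalUSZ hUCZ hREM hBIN
  have hUPR := Helper95.SM.goalUPR hUSZ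
  have hUVL := Helper80.SM.goalUVL hUSZ hUDT
  have hUC3 := Helper57.SM.goalUC3 hUCZ
  have hUCP := Helper27.SM.goalUCP hUCZ
  have hUPD := Helper57.SM.goalUPD hUCZ hUDT
  have hUKY := Helper84.SM.goalUKY hUDT hUC3 hUCP hUPD
  have hURT := Helper32.SM.goalURT hUCZ
  have hUCR := Helper80.SM.goalUCR
  have hULD := Helper40.SM.goalULD hUCR
  have hUAS := Helper40.SM.goalUAS hUDT
  have hUSM := Helper57.SM.goalUSM
  exact Helper73.SM.goalU hUDT hUPR hUVL hUKY hURT hULD hUAS hUSM δ hδ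

end Pool.Agent.Helper73.Superseded.CubeRoots
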