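import Pool.Agent.Helper6.E.Main
import Pool.Agent.Helper6.E.Eig

/-!
# `ε log n` random elements of `A_n` form an expander
-/

set_option linter.unusedSectionVars false

namespace Pool.Agent.Results.MP_75608d_al.LogGenerators

open Matrix Filter Topology Pool.Agent.Helper15.An

variable {n k : ℕ}

/-- Transition matrix of the random walk on `A_n` whose steps multiply on the right by a uniformly
chosen member of the multiset `x_1, x_1⁻¹, ..., x_k, x_k⁻¹`:
`(P f) g = (1 / 2k) * ∑ i, (f (g * x i) + f (g * (x i)⁻¹))`. -/
noncomputable def transition (x : Fin k → alternatingGroup (Fin n)) :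
    Matrix (alternatingGroup (Fin n)) (alternatingGroup (Fin n)) ℝ :=
  fun g h => (2 * (k : ℝ))⁻¹ *
    ∑ i, ((if h = g * x i then (1 : ℝ) else 0) + (if h = g * (x i)⁻¹ then (1 : ℝ) else 0))

theorem transition_isHermitian (x : Fin k → alternatingGroup (Fin n)) :
    (transition x).IsHermitian := by
  ext g h
  rw [conjTranspose_apply]
  unfold transition
  simp only [star_trivial]
  congr 1
  refine Finset.sum_congr rfl fun i _ => ?_
  rw [add_comm]
  congr 1
  · have : g = h * (x i)⁻¹ ↔ h = g * x i := by
      rw [eq_mul_inv_iff_mul_eq]; exact eq_comm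
    simp only [this]
  · have : g = h * x i ↔ h = g * (x i)⁻¹ := by
      rw [eq_mul_inv_iff_mul_eq]; exact eq_comm
    simp only [this]

/-- The second largest eigenvalue, counted with multiplicity, of the transition matrix
(`eigenvalues₀` lists the eigenvalues in decreasing order; the value `1` for the trivial group
is a dummy value). -/
noncomputable def secondEigenvalue (x : Fin k → alternatingGroup (Fin n)) : ℝ :=
  if h : 1 < Fintype.card (alternatingGroup (Fin n)) then
    (transition_isHermitian x).eigenvalues₀ ⟨1, h⟩
  else 1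

/-- `x_1, ..., x_k` generate `A_n` and the spectral gap of their random walk is at least `ε`. -/
def IsExpanding (ε : ℝ) (x : Fin k → alternatingGroup (Fin n)) : Prop :=
  Subgroup.closure (Set.range x) = ⊤ ∧ ε ≤ 1 - secondEigenvalue x

theorem transition_mulVec (x : Fin k → alternatingGroup (Fin n))
    (f : alternatingGroup (Fin n) → ℝ) (g : alternatingGroup (Fin n)) :
    (transition x *ᵥ f) g = (2 * (k : ℝ))⁻¹ * ∑ i, (f (g * x i) + f (g * (x i)⁻¹)) := by
  have h1 : (transition x *ᵥ f) g = ∑ h, transition x g h * f h := rfl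
  rw [h1]
  unfold transition
  simp_rw [mul_assoc]
  rw [← Finset.mul_sum]
  congr 1
  simp_rw [Finset.sum_mul]
  rw [Finset.sum_comm]
  refine Finset.sum_congr rfl fun i _ => ?_
  simp_rw [add_mul]
  rw [Finset.sum_add_distrib]
  simp

theorem isExpanding_of_good (hn : 4 ≤ n) (hk : 0 < k) (F : PW (Equiv.Perm (Fin n))) {ε : ℝ}
    (hε : 0 < ε) (x : Fin k → alternatingGroup (Fin n)) (hgood : Good F (tupW x) n ε) :
    IsExpanding ε x := by
  have hk' : (2 * (k : ℝ)) ≠ 0 := by positivity
  have hc : ∀ f : alternatingGroup (Fin n) → ℝ, f ≠ 0 → ∑ g, f g = 0 → ∀ a : ℝ, 1 - ε < a →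
      transition x *ᵥ f ≠ a • f := by
    intro f hf hs a ha hPf
    refine Pool.Agent.Helper6.E.eig_claim F x ε hgood f hf hs a ha fun g => ?_
    rw [← transition_mulVec, hPf]
    rfl
  constructor
  · by_contra hne
    set H := Subgroup.closure (Set.range x) with hH
    classical
    set c : ℝ := ((Finset.univ.filter fun g : alternatingGroup (Fin n) => g ∈ H).card : ℝ) /
      Fintype.card (alternatingGroup (Fin n)) with hcdef
    have hGpos : (0 : ℝ) < Fintype.card (alternatingGroup (Fin n)) := by
      exact_mod_cast Fintype.card_pos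
    have hcpos : 0 < c := by
      have : 0 < (Finset.univ.filter fun g : alternatingGroup (Fin n) => g ∈ H).card :=
        Finset.card_pos.2 ⟨1, by simp [H.one_mem]⟩
      have h1 : (0 : ℝ) <
          ((Finset.univ.filter fun g : alternatingGroup (Fin n) => g ∈ H).card : ℝ) := by
        exact_mod_cast this
      positivity
    obtain ⟨g0, hg0⟩ : ∃ g, g ∉ H := by
      by_contra hall
      push Not at hall
      exact hne (eq_top_iff.2 fun g _ => hall g)
    have hmem : ∀ i, x i ∈ H := fun i => Subgroup.subset_closure ⟨i, rfl⟩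
    refine hc (fun g => (if g ∈ H then (1 : ℝ) else 0) - c) ?_ ?_ 1 (by linarith) ?_
    · intro h
      have h1 := congrFun h g0
      simp only [if_neg hg0, Pi.zero_apply, zero_sub, neg_eq_zero] at h1
      exact hcpos.ne' h1
    · rw [Finset.sum_sub_distrib, Finset.sum_const, Finset.card_univ, nsmul_eq_mul, hcdef,
        mul_div_cancel₀ _ hGpos.ne', Finset.sum_boole, sub_self]
    · ext g
      rw [transition_mulVec, one_smul]
      have h1 : ∀ i, ((if g * x i ∈ H then (1 : ℝ) else 0) - c) +
          ((if g * (x i)⁻¹ ∈ H then (1 : ℝ) else 0) - c) =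
          2 * ((if g ∈ H then (1 : ℝ) else 0) - c) := by
        intro i
        have h2 : g * x i ∈ H ↔ g ∈ H := H.mul_mem_cancel_right (hmem i)
        have h3 : g * (x i)⁻¹ ∈ H ↔ g ∈ H := H.mul_mem_cancel_right (H.inv_mem (hmem i))
        simp only [h2, h3]
        ring
      simp_rw [h1]
      rw [Finset.sum_const, Finset.card_univ, Fintype.card_fin, nsmul_eq_mul]
      field_simp
  · unfold secondEigenvalue
    have hcard : 1 < Fintype.card (alternatingGroup (Fin n)) := by
      have h1 : Nontrivial (Fin n) := Fin.nontrivial_iff_two_le.2 (by omega)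
      have h2 := two_mul_card_alternatingGroup (α := Fin n)
      rw [Fintype.card_perm, Fintype.card_fin] at h2
      have h3 : 4 ≤ n.factorial := hn.trans (Nat.self_le_factorial n)
      omega
    rw [dif_pos hcard]
    have h1 := second_eig_le (transition x) (transition_isHermitian x) hcard (by
      ext g
      rw [transition_mulVec]
      simp only [Finset.sum_const, Finset.card_univ, Fintype.card_fin, nsmul_eq_mul]
      field_simp
      norm_num) (1 - ε) hc
    linarith

/-- For every `e > 0` there is `ε > 0` such that, for every function `k` with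
`k n ≥ e log n` for all large `n`, `k n` independent uniformly random elements of `A_n` form an
`ε`-expanding generating set with probability tending to one. -/
theorem result : ∀ e : ℝ, 0 < e → ∃ ε : ℝ, 0 < ε ∧ ∀ k : ℕ → ℕ,
    (∀ᶠ n : ℕ in atTop, e * Real.log n ≤ k n) →
    Tendsto (fun n : ℕ =>
      (Nat.card {x : Fin (k n) → alternatingGroup (Fin n) // IsExpanding ε x} : ℝ) /
        Nat.card (Fin (k n) → alternatingGroup (Fin n))) atTop (𝓝 1) := by
  intro e he
  obtain ⟨ε, hε, C, hC, hev⟩ := Pool.Agent.Helper6.E.log_good (e := min e 1)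
    (lt_min he one_pos) (min_le_right _ _)
  refine ⟨ε, hε, fun k hk => ?_⟩
  have h4 : Tendsto (fun n : ℕ => 1 - C / (n : ℝ)) atTop (𝓝 1) := by
    have h5 : Tendsto (fun n : ℕ => C / (n : ℝ)) atTop (𝓝 0) :=
      tendsto_const_div_atTop_nhds_zero_nat C
    simpa using h5.const_sub 1
  refine tendsto_of_tendsto_of_tendsto_of_le_of_le' h4 tendsto_const_nhds ?_ ?_
  · filter_upwards [hk, hev, eventually_ge_atTop 4] with n hkn hgood hn4
    obtain ⟨F⟩ := exists_pw (Equiv.Perm (Fin n))
    have hlog : 0 < Real.log n := Real.log_pos (by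
      have : 1 < n := by omega
      exact_mod_cast this)
    have hkn' : min e 1 * Real.log n ≤ k n :=
      (mul_le_mul_of_nonneg_right (min_le_left _ _) hlog.le).trans hkn
    have hcount := hgood F (k n) hkn'
    have hkpos : 0 < k n := by
      have h1 : (0 : ℝ) < e * Real.log n := mul_pos he hlog
      have : (0 : ℝ) < k n := lt_of_lt_of_le h1 hkn
      exact_mod_cast this
    have hApos : (0 : ℝ) < (Fintype.card (alternatingGroup (Fin n)) : ℝ) ^ k n := by
      have : (0 : ℝ) < Fintype.card (alternatingGroup (Fin n)) := by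
        exact_mod_cast Fintype.card_pos
      positivity
    have hcardN : (Nat.card (Fin (k n) → alternatingGroup (Fin n)) : ℝ) =
        (Fintype.card (alternatingGroup (Fin n)) : ℝ) ^ k n := by
      rw [Nat.card_eq_fintype_card, Fintype.card_fun, Fintype.card_fin]
      push_cast
      rfl
    rw [hcardN, le_div_iff₀ hApos]
    classical
    have hsplit : (Nat.card (Fin (k n) → alternatingGroup (Fin n)) : ℝ) ≤
        (Nat.card {x : Fin (k n) → alternatingGroup (Fin n) // IsExpanding ε x} : ℝ) +
          (Nat.card {z : Fin (k n) → Alt n // ¬ Good F (tupW z) n ε} : ℝ) := by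
      rw [Nat.card_eq_fintype_card, Nat.card_eq_fintype_card, Nat.card_eq_fintype_card,
        Fintype.card_subtype, Fintype.card_subtype, ← Finset.card_univ]
      have h7 : (Finset.univ : Finset (Fin (k n) → alternatingGroup (Fin n))) ⊆
          (Finset.univ.filter fun x => IsExpanding ε x) ∪
            (Finset.univ.filter fun z => ¬ Good F (tupW z) n ε) := by
        intro x _
        rw [Finset.mem_union, Finset.mem_filter, Finset.mem_filter]
        by_cases hg : Good F (tupW x) n ε
        · left
          exact ⟨Finset.mem_univ x, isExpanding_of_good hn4 hkpos F hε x hg⟩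
        · right
          exact ⟨Finset.mem_univ x, hg⟩
      have h8 := (Finset.card_le_card h7).trans (Finset.card_union_le _ _)
      exact_mod_cast h8
    rw [hcardN] at hsplit
    have h9 : (Fintype.card (alternatingGroup (Fin n)) : ℝ) ^ k n * (C / n) =
        C / n * (Fintype.card (alternatingGroup (Fin n)) : ℝ) ^ k n := mul_comm _ _
    have h10 : (Nat.card {z : Fin (k n) → Alt n // ¬ Good F (tupW z) n ε} : ℝ) ≤
        C / n * (Fintype.card (alternatingGroup (Fin n)) : ℝ) ^ k n := by
      rw [← h9]; exact hcount
    rw [sub_mul, one_mul]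
    linarith
  · filter_upwards with n
    apply div_le_one_of_le₀ _ (Nat.cast_nonneg _)
    exact_mod_cast Nat.card_le_card_of_injective _ Subtype.val_injective

end Pool.Agent.Results.MP_75608d_al.LogGenerators
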