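import Pool.Agent.Helper66.Rig.Win3
import Pool.Agent.Helper17.Rg.Final

open MeasureTheory Filter Topology Pool.Agent.Helper66.Rig

namespace Pool.Agent.Helper73.Superseded.WindowLaw

/-- A zero-infinity law for the Fourier coefficients along `n_k = 2 ^ k + 3 ^ k` on the windows
`[N, C N]`, with threshold `C = log 6 / log 2`. Above the threshold, for every `M` and all large `N`
EVERY probability measure `σ` on the unit circle satisfies
`∑_{N ≤ k ≤ C N} (1 - Re σ^(n_k)) ≥ M (1 - Re σ^(1))` (so these sums tend to infinity, uniformly in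
`σ` with `1 - Re σ^(1)` bounded below); below the threshold a suitable continuous `σ` makes
`∑_{N ≤ k ≤ C N} |1 - σ^(n_k)|` arbitrarily small for infinitely many `N`. -/
theorem result :
    (∀ C M : ℝ, Real.log 6 / Real.log 2 < C → ∃ N0 : ℕ, ∀ N : ℕ, N0 ≤ N →
      ∀ σ : Measure ℂ, IsProbabilityMeasure σ → (∀ᵐ z ∂σ, ‖z‖ = 1) →
        M * (1 - (fc σ 1).re) ≤
          ∑ k ∈ Finset.Icc N ⌊C * N⌋₊, (1 - (fc σ (2 ^ k + 3 ^ k)).re)) ∧
    (∃ σ : Measure ℂ, ContProb σ ∧ ∀ C : ℝ, C < Real.log 6 / Real.log 2 → ∀ ε : ℝ, 0 < ε →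
      ∃ᶠ N : ℕ in atTop,
        ∑ k ∈ Finset.Icc N ⌊C * N⌋₊, ‖1 - fc σ (2 ^ k + 3 ^ k)‖ ≤ ε) :=
  ⟨Pool.Agent.Helper17.Rg.meas', exists_windows⟩

end Pool.Agent.Helper73.Superseded.WindowLaw
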